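import Mathlib

set_option autoImplicit false

namespace Pool.Agent.Results.MP_aa493b_co.ConstantBound

section
variable (p S M : ℕ)

/-- product of `r + s x` and `r' + s' x` modulo `p` and `x^2 = S x + M` -/
def mulN (u v : ℕ × ℕ) : ℕ × ℕ :=
  ((u.1 * v.1 + M * (u.2 * v.2)) % p, (u.1 * v.2 + u.2 * v.1 + S * (u.2 * v.2)) % p)

/-- left-to-right binary powering -/
def pwN (z : ℕ × ℕ) : List Bool → ℕ × ℕ → ℕ × ℕ
  | [], acc => acc
  | b :: l, acc => pwN z l (bif b then mulN p S M (mulN p S M acc acc) z else mulN p S M acc acc)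

def val : List Bool → ℕ → ℕ
  | [], e => e
  | b :: l, e => val l (2 * e + (bif b then 1 else 0))

/-- at most `j` times second coordinate one during `k` steps of multiplication by `x` -/
def run : ℕ → ℕ → ℕ → ℕ → Bool
  | 0, _, _, _ => true
  | k + 1, j, r, s => bif Nat.beq s 1 then
      (bif Nat.beq j 0 then false else run k (j - 1) ((M * s) % p) ((r + S * s) % p))
    else run k j ((M * s) % p) ((r + S * s) % p)

abbrev Rg : Type := QuadraticAlgebra (ZMod p) (M : ZMod p) (S : ZMod p)

def emb (u : ℕ × ℕ) : Rg p S M := ⟨(u.1 : ZMod p), (u.2 : ZMod p)⟩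

theorem emb_mul (u v : ℕ × ℕ) : emb p S M (mulN p S M u v) = emb p S M u * emb p S M v := by
  unfold emb mulN
  ext
  · simp only [QuadraticAlgebra.re_mul, ZMod.natCast_mod]
    push_cast
    ring
  · simp only [QuadraticAlgebra.im_mul, ZMod.natCast_mod]
    push_cast
    ring

theorem emb_pw (z : ℕ × ℕ) (l : List Bool) : ∀ (acc : ℕ × ℕ) (e : ℕ),
    emb p S M acc = emb p S M z ^ e → emb p S M (pwN p S M z l acc) = emb p S M z ^ (val l e) := by
  induction l with
  | nil => intro acc e h; exact h
  | cons b l ih =>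
    intro acc e h
    unfold pwN val
    apply ih
    cases b
    · simp only [cond_false, emb_mul, h]
      ring
    · simp only [cond_true, emb_mul, h]
      ring

theorem emb_pw' (z : ℕ × ℕ) (l : List Bool) (e : ℕ) (h : val l 0 = e) :
    emb p S M z ^ e = emb p S M (pwN p S M z l (1, 0)) := by
  rw [emb_pw p S M z l (1, 0) 0 (by
    rw [pow_zero]; unfold emb; ext <;> simp [QuadraticAlgebra.re_one, QuadraticAlgebra.im_one]), h]

open Classical in
theorem run_spec (k : ℕ) : ∀ j r s : ℕ, s < p → 1 < p → run p S M k j r s = true →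
    ∑ t ∈ Finset.range k, (if (emb p S M (r, s) * emb p S M (0, 1) ^ t).im = 1 then 1 else 0) ≤ j
    := by
  induction k with
  | zero => intro j r s _ _ _; simp
  | succ k ih =>
    intro j r s hs hp h
    have h4 : emb p S M ((M * s) % p, (r + S * s) % p) =
        emb p S M (r, s) * emb p S M (0, 1) := by
      rw [← emb_mul]
      unfold emb mulN
      ext <;> simp
    have h5 : ∀ t : ℕ, emb p S M (r, s) * emb p S M (0, 1) ^ (t + 1) =
        emb p S M ((M * s) % p, (r + S * s) % p) * emb p S M (0, 1) ^ t := by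
      intro t
      rw [h4, pow_succ', mul_assoc]
    rw [Finset.sum_range_succ']
    simp only [h5]
    have hlt : (r + S * s) % p < p := Nat.mod_lt _ (by omega)
    unfold run at h
    cases h1 : Nat.beq s 1
    · rw [h1, cond_false] at h
      have hs1 : s ≠ 1 := by
        intro hc; rw [hc] at h1; simp at h1
      have h6 := ih j _ _ hlt hp h
      rw [if_neg (c := (emb p S M (r, s) * emb p S M (0, 1) ^ 0).im = 1)]
      · simpa using h6
      · rw [pow_zero, mul_one]
        intro hc
        have h2 : ((s : ℕ) : ZMod p) = ((1 : ℕ) : ZMod p) := by simpa [emb] using hc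
        rw [ZMod.natCast_eq_natCast_iff, Nat.ModEq, Nat.mod_eq_of_lt hs, Nat.mod_eq_of_lt hp] at h2
        exact hs1 h2
    · rw [h1, cond_true] at h
      cases h2 : Nat.beq j 0
      · rw [h2, cond_false] at h
        have hj : j ≠ 0 := by
          intro hc; rw [hc] at h2; simp at h2
        have h6 := ih (j - 1) _ _ hlt hp h
        have h7 : (if (emb p S M (r, s) * emb p S M (0, 1) ^ 0).im = 1 then 1 else 0) ≤ 1 := by
          split_ifs <;> omega
        omega
      · rw [h2, cond_true] at h
        exact absurd h (by decide)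

end

theorem sid_aux (p S M : ℕ) (za zb zc zd : Rg p S M) (e1 : za * zb = zc * zd)
    (i1 : za.im = 1) (i2 : zb.im = 1) (i3 : zc.im = 1) (i4 : zd.im = 1) :
    (za.re - zc.re) * (za.re - zd.re) = 0 := by
  have e2 := congrArg QuadraticAlgebra.re e1
  have e3 := congrArg QuadraticAlgebra.im e1
  rw [QuadraticAlgebra.re_mul, QuadraticAlgebra.re_mul] at e2
  rw [QuadraticAlgebra.im_mul, QuadraticAlgebra.im_mul] at e3
  rw [i1, i2, i3, i4] at e2 e3
  have e4 : za.re + zb.re = zc.re + zd.re := by linear_combination e3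
  have e5 : za.re * zb.re = zc.re * zd.re := by linear_combination e2
  linear_combination za.re * e4 - e5

/-- Sidon sets from a primitive element and a gap. -/
theorem main (p S M r s G j : ℕ) [hp : Fact p.Prime] (hs : s < p) (hs0 : s ≠ 0)
    (hone : emb p S M (0, 1) ^ (p * p - 1) = 1)
    (hprim : ∀ l : ℕ, l.Prime → l ∣ p * p - 1 → emb p S M (0, 1) ^ ((p * p - 1) / l) ≠ 1)
    (hrun : run p S M G j r s = true) :
    ∃ A : Finset ℕ, A ⊆ Finset.Icc 1 (p * p - 1 - G) ∧ p ≤ A.card + j ∧
      ∀ a ∈ A, ∀ b ∈ A, ∀ c ∈ A, ∀ d ∈ A, a + b = c + d → (a = c ∧ b = d) ∨ (a = d ∧ b = c) := by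
  classical
  have hp1 : 1 < p := hp.out.one_lt
  have hN : 0 < p * p - 1 := by
    have : 2 * 2 ≤ p * p := Nat.mul_le_mul hp.out.two_le hp.out.two_le
    omega
  set N := p * p - 1 with hNdef
  let R := Rg p S M
  let x : R := emb p S M (0, 1)
  let γ : R := emb p S M (r, s)
  have hord : orderOf x = N := orderOf_eq_of_pow_and_pow_div_prime hN hone hprim
  let _ : Fintype R := Fintype.ofEquiv (ZMod p × ZMod p) (QuadraticAlgebra.equivProd _ _).symm
  have hcard : Fintype.card R = p * p := by
    rw [Fintype.card_congr (QuadraticAlgebra.equivProd (M : ZMod p) (S : ZMod p)),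
      Fintype.card_prod, ZMod.card]
  have hxu : IsUnit x := by
    refine IsUnit.of_mul_eq_one (x ^ (N - 1)) ?_
    rw [← pow_succ', Nat.sub_add_cancel hN]
    exact hone
  have : Nontrivial R := by
    refine ⟨0, 1, ?_⟩
    intro h
    have := congrArg QuadraticAlgebra.re h
    simp only [QuadraticAlgebra.re_zero, QuadraticAlgebra.re_one] at this
    exact zero_ne_one this
  -- powers of x are all nonzero elements
  have hsurj : ∀ g : R, IsUnit g → ∀ z : R, z ≠ 0 → ∃ t, t < N ∧ g * x ^ t = z := by
    intro g hg z hz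
    have hinj : Set.InjOn (fun t => g * x ^ t) (Finset.range N : Set ℕ) := by
      intro a ha b hb hab
      have h1 : x ^ a = x ^ b := hg.mul_left_cancel hab
      have h2 := pow_injOn_Iio_orderOf (x := x)
      rw [hord] at h2
      exact h2 (by simpa using ha) (by simpa using hb) h1
    have himg : (Finset.range N).image (fun t => g * x ^ t) = Finset.univ.erase 0 := by
      apply Finset.eq_of_subset_of_card_le
      · intro y hy
        rw [Finset.mem_image] at hy
        obtain ⟨t, _, rfl⟩ := hy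
        rw [Finset.mem_erase]
        exact ⟨(hg.mul (hxu.pow t)).ne_zero, Finset.mem_univ _⟩
      · rw [Finset.card_image_of_injOn hinj, Finset.card_range,
          Finset.card_erase_of_mem (Finset.mem_univ _), Finset.card_univ, hcard]
    have h3 : z ∈ Finset.univ.erase (0 : R) := Finset.mem_erase.2 ⟨hz, Finset.mem_univ _⟩
    rw [← himg, Finset.mem_image] at h3
    obtain ⟨t, ht, h⟩ := h3
    exact ⟨t, Finset.mem_range.1 ht, h⟩
  have hγ0 : γ ≠ 0 := by
    intro h
    have h1 := congrArg QuadraticAlgebra.im h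
    have h2 : ((s : ℕ) : ZMod p) = 0 := by simpa [γ, emb] using h1
    rw [ZMod.natCast_eq_zero_iff] at h2
    exact hs0 (Nat.eq_zero_of_dvd_of_lt h2 hs)
  have hγu : IsUnit γ := by
    obtain ⟨t, _, ht⟩ := hsurj 1 isUnit_one γ hγ0
    rw [← ht, one_mul]
    exact hxu.pow t
  have hinjγ : ∀ a b, a < N → b < N → γ * x ^ a = γ * x ^ b → a = b := by
    intro a b ha hb hab
    have h1 : x ^ a = x ^ b := hγu.mul_left_cancel hab
    have h2 := pow_injOn_Iio_orderOf (x := x)
    rw [hord] at h2
    exact h2 ha hb h1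
  have hgap := run_spec p S M G j r s hs hp1 hrun
  -- the exponents
  let T : Finset ℕ := (Finset.range N).filter (fun t => (γ * x ^ t).im = 1)
  have hTcard : T.card = p := by
    have h1 : T.image (fun t => (γ * x ^ t).re) = Finset.univ := by
      apply Finset.eq_univ_of_forall
      intro c
      obtain ⟨t, ht, h⟩ := hsurj γ hγu ⟨c, 1⟩ (by
        intro h
        have h8 := congrArg QuadraticAlgebra.im h
        exact one_ne_zero (α := ZMod p) h8)
      rw [Finset.mem_image]
      refine ⟨t, ?_, by rw [h]⟩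
      rw [Finset.mem_filter, Finset.mem_range]
      exact ⟨ht, by rw [h]⟩
    have h2 : Set.InjOn (fun t => (γ * x ^ t).re) (T : Set ℕ) := by
      intro a ha b hb hab
      rw [Finset.mem_coe, Finset.mem_filter, Finset.mem_range] at ha hb
      apply hinjγ a b ha.1 hb.1
      ext
      · exact hab
      · rw [ha.2, hb.2]
    have h3 := Finset.card_image_of_injOn h2
    rw [h1, Finset.card_univ, ZMod.card] at h3
    exact h3.symm
  have hsidon : ∀ a ∈ T, ∀ b ∈ T, ∀ c ∈ T, ∀ d ∈ T, a + b = c + d →
      (a = c ∧ b = d) ∨ (a = d ∧ b = c) := by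
    intro a ha b hb c hc d hd h
    have ha' := Finset.mem_filter.1 ha
    have hb' := Finset.mem_filter.1 hb
    have hc' := Finset.mem_filter.1 hc
    have hd' := Finset.mem_filter.1 hd
    have e1 : (γ * x ^ a) * (γ * x ^ b) = (γ * x ^ c) * (γ * x ^ d) := by
      have : x ^ a * x ^ b = x ^ c * x ^ d := by rw [← pow_add, ← pow_add, h]
      calc (γ * x ^ a) * (γ * x ^ b) = γ * γ * (x ^ a * x ^ b) := by ring
        _ = γ * γ * (x ^ c * x ^ d) := by rw [this]
        _ = _ := by ring
    have i1 : (γ * x ^ a).im = 1 := ha'.2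
    have i2 : (γ * x ^ b).im = 1 := hb'.2
    have i3 : (γ * x ^ c).im = 1 := hc'.2
    have i4 : (γ * x ^ d).im = 1 := hd'.2
    have e6 := sid_aux p S M _ _ _ _ e1 i1 i2 i3 i4
    rcases mul_eq_zero.1 e6 with h6 | h6
    · left
      have h7 : a = c := hinjγ a c (Finset.mem_range.1 ha'.1) (Finset.mem_range.1 hc'.1) (by
        ext
        · exact sub_eq_zero.1 h6
        · exact i1.trans i3.symm)
      exact ⟨h7, by omega⟩
    · right
      have h7 : a = d := hinjγ a d (Finset.mem_range.1 ha'.1) (Finset.mem_range.1 hd'.1) (by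
        ext
        · exact sub_eq_zero.1 h6
        · exact i1.trans i4.symm)
      exact ⟨h7, by omega⟩
  let T' : Finset ℕ := T.filter (fun t => G ≤ t)
  have hTG : ∀ t ∈ T', t ∈ T ∧ G ≤ t ∧ t < N := by
    intro t ht
    have h1 := Finset.mem_filter.1 ht
    have h2 := Finset.mem_filter.1 h1.1
    exact ⟨h1.1, h1.2, Finset.mem_range.1 h2.1⟩
  have hTc : p ≤ T'.card + j := by
    have h1 : T'.card + (T.filter (fun t => ¬ G ≤ t)).card = T.card :=
      Finset.card_filter_add_card_filter_not _
    have h2 : (T.filter (fun t => ¬ G ≤ t)).card ≤ j := by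
      refine le_trans ?_ hgap
      rw [← Finset.card_filter]
      apply Finset.card_le_card
      intro t ht
      have h3 := Finset.mem_filter.1 ht
      have h4 := Finset.mem_filter.1 h3.1
      exact Finset.mem_filter.2 ⟨Finset.mem_range.2 (by omega), h4.2⟩
    omega
  refine ⟨T'.image (fun t => t - G + 1), ?_, ?_, ?_⟩
  · intro y hy
    rw [Finset.mem_image] at hy
    obtain ⟨t, ht, rfl⟩ := hy
    have := hTG t ht
    rw [Finset.mem_Icc]
    omega
  · rw [Finset.card_image_of_injOn]
    · exact hTc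
    · intro a ha b hb hab
      have h1 := hTG a ha
      have h2 := hTG b hb
      have hab' : a - G + 1 = b - G + 1 := hab
      omega
  · intro a ha b hb c hc d hd h
    rw [Finset.mem_image] at ha hb hc hd
    obtain ⟨a, ha, rfl⟩ := ha
    obtain ⟨b, hb, rfl⟩ := hb
    obtain ⟨c, hc, rfl⟩ := hc
    obtain ⟨d, hd, rfl⟩ := hd
    have h1 := hTG a ha
    have h2 := hTG b hb
    have h3 := hTG c hc
    have h4 := hTG d hd
    rcases hsidon a h1.1 b h2.1 c h3.1 d h4.1 (by omega) with ⟨h5, h6⟩ | ⟨h5, h6⟩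
    · left; subst h5; subst h6; exact ⟨rfl, rfl⟩
    · right; subst h5; subst h6; exact ⟨rfl, rfl⟩

theorem emb_ne_one (p S M : ℕ) (hp : 1 < p) (u : ℕ × ℕ)
    (h : (Nat.blt u.1 p && Nat.blt u.2 p && !(Nat.beq u.1 1 && Nat.beq u.2 0)) = true) :
    emb p S M u ≠ 1 := by
  intro hc
  have h1 := congrArg QuadraticAlgebra.re hc
  have h2 := congrArg QuadraticAlgebra.im hc
  simp only [emb, QuadraticAlgebra.re_one, QuadraticAlgebra.im_one] at h1 h2
  simp only [Bool.and_eq_true, Bool.not_eq_true', Nat.blt_eq] at h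
  obtain ⟨⟨ha, hb⟩, hn⟩ := h
  have h3 : ((u.1 : ℕ) : ZMod p) = ((1 : ℕ) : ZMod p) := by simpa using h1
  rw [ZMod.natCast_eq_natCast_iff, Nat.ModEq, Nat.mod_eq_of_lt ha, Nat.mod_eq_of_lt hp] at h3
  rw [ZMod.natCast_eq_zero_iff] at h2
  have h4 : u.2 = 0 := Nat.eq_zero_of_dvd_of_lt h2 hb
  rw [h3, h4] at hn
  simp at hn

theorem emb_one (p S M : ℕ) : emb p S M (1, 0) = 1 := by
  unfold emb; ext <;> simp [QuadraticAlgebra.re_one, QuadraticAlgebra.im_one]

theorem pr : Nat.Prime 5639 := by norm_num

theorem hone : emb 5639 3532 171 (0, 1) ^ (5639 * 5639 - 1) = 1 := by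
  rw [show 5639 * 5639 - 1 = 31798320 by norm_num, emb_pw' 5639 3532 171 (0, 1) [true, true, true, true, false, false, true, false, true, false, false, true, true, false, true, false, false, false, false, true, true, false, false, false, false] 31798320 (by decide +kernel),
    show pwN 5639 3532 171 (0, 1) [true, true, true, true, false, false, true, false, true, false, false, true, true, false, true, false, false, false, false, true, true, false, false, false, false] (1, 0) = (1, 0) by decide +kernel, emb_one]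

theorem hp2 : emb 5639 3532 171 (0, 1) ^ ((5639 * 5639 - 1) / 2) ≠ 1 := by
  rw [show (5639 * 5639 - 1) / 2 = 15899160 by norm_num, emb_pw' 5639 3532 171 (0, 1) [true, true, true, true, false, false, true, false, true, false, false, true, true, false, true, false, false, false, false, true, true, false, false, false] 15899160
    (by decide +kernel)]
  exact emb_ne_one _ _ _ (by norm_num) _ (by decide +kernel)

theorem hp3 : emb 5639 3532 171 (0, 1) ^ ((5639 * 5639 - 1) / 3) ≠ 1 := by
  rw [show (5639 * 5639 - 1) / 3 = 10599440 by norm_num, emb_pw' 5639 3532 171 (0, 1) [true, false, true, false, false, false, false, true, true, false, true, true, true, true, false, false, false, false, false, true, false, false, false, false] 10599440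
    (by decide +kernel)]
  exact emb_ne_one _ _ _ (by norm_num) _ (by decide +kernel)

theorem hp5 : emb 5639 3532 171 (0, 1) ^ ((5639 * 5639 - 1) / 5) ≠ 1 := by
  rw [show (5639 * 5639 - 1) / 5 = 6359664 by norm_num, emb_pw' 5639 3532 171 (0, 1) [true, true, false, false, false, false, true, false, false, false, false, true, false, true, false, false, true, true, true, false, false, false, false] 6359664
    (by decide +kernel)]
  exact emb_ne_one _ _ _ (by norm_num) _ (by decide +kernel)

theorem hp47 : emb 5639 3532 171 (0, 1) ^ ((5639 * 5639 - 1) / 47) ≠ 1 := by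
  rw [show (5639 * 5639 - 1) / 47 = 676560 by norm_num, emb_pw' 5639 3532 171 (0, 1) [true, false, true, false, false, true, false, true, false, false, true, false, true, true, false, true, false, false, false, false] 676560
    (by decide +kernel)]
  exact emb_ne_one _ _ _ (by norm_num) _ (by decide +kernel)

theorem hp2819 : emb 5639 3532 171 (0, 1) ^ ((5639 * 5639 - 1) / 2819) ≠ 1 := by
  rw [show (5639 * 5639 - 1) / 2819 = 11280 by norm_num, emb_pw' 5639 3532 171 (0, 1) [true, false, true, true, false, false, false, false, false, true, false, false, false, false] 11280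
    (by decide +kernel)]
  exact emb_ne_one _ _ _ (by norm_num) _ (by decide +kernel)

theorem hprim (l : ℕ) (hl : l.Prime) (hd : l ∣ 5639 * 5639 - 1) :
    emb 5639 3532 171 (0, 1) ^ ((5639 * 5639 - 1) / l) ≠ 1 := by
  have h0 : 5639 * 5639 - 1 = 2 ^ 4 * (3 ^ 1 * (5 ^ 1 * (47 ^ 1 * (2819 ^ 1)))) := by norm_num
  have hd2 : l ∣ 2 ^ 4 * (3 ^ 1 * (5 ^ 1 * (47 ^ 1 * (2819 ^ 1)))) := by rw [← h0]; exact hd
  clear hd
  rcases (Nat.Prime.dvd_mul hl).1 hd2 with hd1 | hd2
  · have h1 : l = 2 := (Nat.prime_dvd_prime_iff_eq hl (by norm_num)).1 (hl.dvd_of_dvd_pow hd1)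
    rw [h1]; exact hp2
  rcases (Nat.Prime.dvd_mul hl).1 hd2 with hd1 | hd2
  · have h1 : l = 3 := (Nat.prime_dvd_prime_iff_eq hl (by norm_num)).1 (hl.dvd_of_dvd_pow hd1)
    rw [h1]; exact hp3
  rcases (Nat.Prime.dvd_mul hl).1 hd2 with hd1 | hd2
  · have h1 : l = 5 := (Nat.prime_dvd_prime_iff_eq hl (by norm_num)).1 (hl.dvd_of_dvd_pow hd1)
    rw [h1]; exact hp5
  rcases (Nat.Prime.dvd_mul hl).1 hd2 with hd1 | hd2
  · have h1 : l = 47 := (Nat.prime_dvd_prime_iff_eq hl (by norm_num)).1 (hl.dvd_of_dvd_pow hd1)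
    rw [h1]; exact hp47
  have h1 : l = 2819 := (Nat.prime_dvd_prime_iff_eq hl (by norm_num)).1 (hl.dvd_of_dvd_pow hd2)
  rw [h1]; exact hp2819

set_option maxRecDepth 1000000 in
theorem hrun : run 5639 3532 171 260644 6 171 199 = true := by decide +kernel

theorem set_exists : ∃ A : Finset ℕ, A ⊆ Finset.Icc 1 31537676 ∧ 5639 ≤ A.card + 6 ∧
    ∀ a ∈ A, ∀ b ∈ A, ∀ c ∈ A, ∀ d ∈ A, a + b = c + d → (a = c ∧ b = d) ∨ (a = d ∧ b = c) := by
  have : Fact (Nat.Prime 5639) := ⟨pr⟩
  have h := main 5639 3532 171 171 199 260644 6 (by norm_num) (by norm_num) hone hprim hrun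
  simpa using h

/-- Every constant `C` as in the Erdős–Turán question is larger than `17.158`. -/
theorem result (C : ℝ)
    (hC : ∀ n : ℕ, ∀ A : Finset ℕ, A ⊆ Finset.Icc 1 n →
      (∀ a ∈ A, ∀ b ∈ A, ∀ c ∈ A, ∀ d ∈ A,
        a + b = c + d → (a = c ∧ b = d) ∨ (a = d ∧ b = c)) →
      (A.card : ℝ) ≤ Real.sqrt n + C) :
    (17158 / 1000 : ℝ) < C := by
  obtain ⟨A, hA, hc, hs⟩ := set_exists
  have h := hC 31537676 A hA hs
  have h1 : Real.sqrt ((31537676 : ℕ) : ℝ) < 5633 - 17158 / 1000 := by
    rw [Real.sqrt_lt' (by norm_num)]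
    norm_num
  have h2 : (5639 : ℝ) ≤ (A.card : ℝ) + 6 := by exact_mod_cast hc
  push_cast at h h1
  linarith

end Pool.Agent.Results.MP_aa493b_co.ConstantBound
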